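import Pool.Agent.Helper3.WT.St.Stubs

/-! Project WT (MP_12a1af_nt, Q2), piece WT-A7: existence of components. -/

set_option autoImplicit false

namespace Pool.Agent.Helper64.WT

open Finset
open Pool.Agent.Helper48.ET
open Pool.Agent.Helper3.WT

theorem topSet_subset {p : ℕ} [Fact p.Prime] (C N : ℕ) (θ : Par p) (ℓ : ℕ) :
    topSet C N θ ℓ ⊆ wordSet C N θ ℓ := by
  rintro n ⟨x, z, h1, h2, _, h4⟩
  exact ⟨x, z, h1, h2, h4⟩

theorem GG_pos (C M : ℕ) : 1 ≤ GG C M := by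
  unfold GG N0
  have h1 : 0 < 2 ^ (Nat.log C M + 1) := by positivity
  have h2 : 0 < ((2 * C ^ 4 + 1) ^ (2 * C ^ 4)) ^ 2 := by positivity
  exact Nat.mul_pos h1 h2

/-- WT-A7 -/
theorem comp_exists {C M p : ℕ} (hC : 8 ≤ C) (hev : Even C) (hM : 2 ≤ M) (hpp : p.Prime)
    (hp : P0 C M < p) (hMp : M < p) :
    ∃ (T : Set ℕ) (S : ℕ → Set ℕ), Comp p M (GG C M) T S := by
  have : Fact p.Prime := ⟨hpp⟩
  obtain ⟨θ, hθ⟩ := St.select0_of (C := C) (M := M) (p := p) hp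
    (fun h2 {N} hN θ hl t w => St.pair_self0 hC hN h2 θ hl t w)
    (fun {N' N} h0 h1 h2 θ' => St.pair_lt0 hC hev h0 h1 h2 θ')
  have hC2 : 2 ≤ C := by omega
  have key : ∀ N' N ℓ' ℓ, 0 < N' → N' ≤ N → N ≤ M → ∀ n,
      rp (wordSet C N' (θ N') ℓ') (wordSet C N (θ N) ℓ) n ≤ GG C M := fun N' N ℓ' ℓ h0 h1 h2 n =>
    St.rp_word_le hC2 h1 (hθ N' N h0 h1 h2) n
  refine ⟨wordSet C M (θ M) 0, fun N => topSet C N (θ N) N, ?_⟩
  refine { two_le := hM, lt_p := hMp, G_pos := GG_pos C M, T_lt := ?_, S_lt := ?_, S_ge := ?_,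
           T_lab := ?_, S_lab := ?_, TT := ?_, TS := ?_, SS := ?_, T_card := ?_, S_card := ?_ }
  · rintro a ⟨x, z, _, _, rfl⟩
    exact St.two_enc_lt M x z
  · rintro N _ _ a ⟨x, z, _, _, _, rfl⟩
    exact St.two_enc_lt N x z
  · rintro N h2 _ a ⟨x, z, _, _, h3, rfl⟩
    exact St.le_enc (by omega) x z h3
  · rintro a ⟨x, z, _, h, rfl⟩
    rw [St.enc_mod (by omega) x z, h, Nat.cast_zero, ZMod.val_zero]
  · rintro N h2 hN a ⟨x, z, _, h, _, rfl⟩
    rw [St.enc_mod (by omega) x z, h, ZMod.val_natCast_of_lt (by omega)]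
  · intro n
    exact key M M 0 0 (by omega) le_rfl le_rfl n
  · intro N h2 hN n
    rw [St.rp_comm]
    exact (St.rp_mono (topSet_subset C N (θ N) N) subset_rfl n).trans
      (key N M N 0 (by omega) hN le_rfl n)
  · intro N N' h2 h1 hN n
    rw [St.rp_comm]
    exact (St.rp_mono (topSet_subset C N' (θ N') N') (topSet_subset C N (θ N) N) n).trans
      (key N' N N' N (by omega) h1 hN n)
  · exact St.word_card hC2 (by omega) (θ M) 0
  · intro N h2 _
    exact St.top_card hC2 h2 (θ N) N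

end Pool.Agent.Helper64.WT
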